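import Pool.Agent.helper80.SB.A
import Pool.Agent.helper82.SB.Active

set_option autoImplicit false

namespace Pool.Agent.helper82.SB.H

open Matrix Filter Topology

/-! ### Building polygonal knots from one period -/

theorem per_mod {m : ℕ} (_hm : 0 < m) {Q : ℤ → E3} (hper : ∀ i, Q (i + m) = Q i) (i : ℤ) :
    Q i = Q (i % m) := by
  have h : ∀ (a : ℤ) (q : ℕ), Q (a + q * m) = Q a := by
    intro a q
    induction q with
    | zero => simp
    | succ q ih => rw [← ih]; push_cast; rw [show a + (q + 1) * (m:ℤ) = a + q * m + m by ring, hper]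
  have h' : ∀ (a q : ℤ), Q (a + q * m) = Q a := by
    intro a q
    rcases Int.eq_nat_or_neg q with ⟨k, rfl | rfl⟩
    · exact h a k
    · have := h (a + (-(k:ℤ)) * m) k
      rw [← this]; congr 1; ring
  conv_lhs => rw [← Int.emod_add_mul_ediv i m, mul_comm]
  exact h' _ _

/-- a polygonal knot from the conditions on one period -/
theorem exists_knot (m : ℕ) (hm : 3 ≤ m) (Q : ℤ → E3) (hper : ∀ i, Q (i + m) = Q i)
    (hc : ∀ i : ℤ, 0 ≤ i → i < m → ¬ SameRay ℝ (Q (i - 1) - Q i) (Q (i + 1) - Q i))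
    (hd : ∀ i j : ℤ, 0 ≤ i → i + 2 ≤ j → j < m → (0 < i ∨ j + 1 < m) →
      Disjoint (segment ℝ (Q i) (Q (i + 1))) (segment ℝ (Q j) (Q (j + 1)))) :
    ∃ K : PolyKnot, K.n = m ∧ K.P = Q := by
  have hm0 : (0:ℤ) < m := by omega
  have hq : ∀ i k : ℤ, Q (i + k) = Q (i % m + k) := by
    intro i k
    rw [per_mod (by omega) hper (i + k), per_mod (by omega) hper (i % m + k)]
    congr 1
    rw [Int.emod_add_emod]
  refine ⟨⟨m, Q, hm, hper, ?_, ?_⟩, rfl, rfl⟩
  · intro i
    have h1 := hc (i % m) (Int.emod_nonneg _ hm0.ne') (Int.emod_lt_of_pos _ hm0)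
    have e1 := hq i (-1)
    have e2 := hq i 1
    have e3 := hq i 0
    simp only [add_zero] at e3
    rw [show i - 1 = i + (-1) by ring, e1, e2, e3]
    exact h1
  · intro i j h1 h2
    have hi0 := Int.emod_nonneg i hm0.ne'
    have hi1 := Int.emod_lt_of_pos i hm0
    have e1 := hq i 1
    have e3 := hq i 0
    simp only [add_zero] at e3
    have f1 : ∀ k : ℤ, Q (j + k) = Q (i % m + (j - i) + k) := by
      intro k
      have := hq i (j - i + k)
      rw [show i + (j - i + k) = j + k by ring] at this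
      rw [this]; congr 1; ring
    have f0 := f1 0
    simp only [add_zero] at f0
    rw [e1, e3, f1 1, f0]
    by_cases hlt : i % m + (j - i) < m
    · exact hd _ _ hi0 (by omega) hlt (by omega)
    · have g0 : ∀ k : ℤ, Q (i % m + (j - i) + k) = Q (i % m + (j - i) - m + k) := by
        intro k
        rw [← hper (i % m + (j - i) - m + k)]
        congr 1; ring
      have g1 := g0 0
      simp only [add_zero] at g1
      rw [g0 1, g1]
      exact (hd _ _ (by omega) (by omega) hi1 (by omega)).symm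

/-- the polygon with a new vertex in the middle of the last edge and the neighbours of this edge
slightly displaced along the adjacent edges -/
noncomputable def LP (n : ℕ) (P : ℤ → E3) (p q : ℝ) (i : ℤ) : E3 :=
  if i % ((n : ℤ) + 1) = 0 then P 0 + q • edge P 0
  else if i % ((n : ℤ) + 1) = n - 1 then P (n - 1) - p • edge P (n - 2)
  else if i % ((n : ℤ) + 1) = n then P (n - 1) + (1 / 2 : ℝ) • edge P (n - 1)
  else P (i % ((n : ℤ) + 1))

section LP
variable {n : ℕ} {P : ℤ → E3} {p q : ℝ}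

theorem LP_per (i : ℤ) : LP n P p q (i + (n + 1 : ℕ)) = LP n P p q i := by
  unfold LP
  push_cast
  rw [Int.add_emod_right]

theorem LP_zero : LP n P p q 0 = P 0 + q • edge P 0 := by
  unfold LP
  rw [Int.zero_emod, if_pos rfl]

theorem LP_mid {i : ℤ} (h1 : 1 ≤ i) (h2 : i ≤ n - 2) : LP n P p q i = P i := by
  unfold LP
  rw [Int.emod_eq_of_lt (by omega) (by omega), if_neg (by omega), if_neg (by omega),
    if_neg (by omega)]

theorem LP_n1 (hn : 2 ≤ n) : LP n P p q (n - 1) = P (n - 1) - p • edge P (n - 2) := by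
  unfold LP
  rw [Int.emod_eq_of_lt (by omega) (by omega), if_neg (by omega), if_pos rfl]

theorem LP_n (hn : 2 ≤ n) : LP n P p q n = P (n - 1) + (1 / 2 : ℝ) • edge P (n - 1) := by
  unfold LP
  rw [Int.emod_eq_of_lt (by omega) (by omega), if_neg (by omega), if_neg (by omega), if_pos rfl]

theorem LP_succ : LP n P p q (n + 1) = P 0 + q • edge P 0 := by
  have := LP_per (n := n) (P := P) (p := p) (q := q) 0
  rw [LP_zero] at this
  rw [← this]; congr 1; push_cast; ring

theorem LP_neg (hn : 2 ≤ n) : LP n P p q (-1) = P (n - 1) + (1 / 2 : ℝ) • edge P (n - 1) := by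
  have := LP_per (n := n) (P := P) (p := p) (q := q) (-1)
  rw [← this, ← LP_n (p := p) (q := q) hn]; congr 1; push_cast; ring

theorem edge_zero (hn : 3 ≤ n) : edge (LP n P p q) 0 = (1 - q) • edge P 0 := by
  unfold edge
  rw [LP_zero, zero_add, LP_mid (by omega) (by omega)]
  unfold edge
  rw [zero_add]
  module

theorem edge_mid {i : ℤ} (h1 : 1 ≤ i) (h2 : i ≤ n - 3) : edge (LP n P p q) i = edge P i := by
  unfold edge
  rw [LP_mid h1 (by omega), LP_mid (by omega) (by omega)]

theorem edge_n2 (hn : 3 ≤ n) : edge (LP n P p q) (n - 2) = (1 - p) • edge P (n - 2) := by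
  unfold edge
  rw [show (n:ℤ) - 2 + 1 = n - 1 by ring, LP_n1 (by omega), LP_mid (by omega) (by omega)]
  unfold edge
  rw [show (n:ℤ) - 2 + 1 = n - 1 by ring]
  module

theorem edge_n1 (hn : 3 ≤ n) :
    edge (LP n P p q) (n - 1) = (1 / 2 : ℝ) • edge P (n - 1) + p • edge P (n - 2) := by
  conv_lhs => unfold edge
  rw [show (n:ℤ) - 1 + 1 = n by ring, LP_n (by omega), LP_n1 (by omega)]
  module

theorem edge_n (hper : ∀ i, P (i + n) = P i) (hn : 3 ≤ n) :
    edge (LP n P p q) n = (1 / 2 : ℝ) • edge P (n - 1) + q • edge P 0 := by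
  conv_lhs => unfold edge
  rw [LP_succ, LP_n (by omega)]
  have h0 : P 0 = P n := by have := hper 0; rw [zero_add] at this; exact this.symm
  rw [h0]
  unfold edge
  rw [show (n:ℤ) - 1 + 1 = n by ring, h0]
  module

theorem edge_neg (hper : ∀ i, P (i + n) = P i) (hn : 3 ≤ n) :
    edge (LP n P p q) (-1) = (1 / 2 : ℝ) • edge P (n - 1) + q • edge P 0 := by
  have := edge_per (LP_per (n := n) (P := P) (p := p) (q := q)) (-1)
  rw [← this, ← edge_n hper hn]; congr 1; push_cast; ring

end LP

/-! ### The subdivided polygon -/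

theorem adj {a b c : E3} (h : ¬ SameRay ℝ (a - b) (c - b)) {t : ℝ} (ht : 0 < t) (ht1 : t ≤ 1) :
    Disjoint (segment ℝ a b) (segment ℝ (b + t • (c - b)) c) := by
  rw [Set.disjoint_left]
  rintro x hx1 hx2
  rw [segment_eq_image_lineMap] at hx1 hx2
  obtain ⟨s, hs, rfl⟩ := hx1
  obtain ⟨u, hu, hx⟩ := hx2
  rw [AffineMap.lineMap_apply_module, AffineMap.lineMap_apply_module] at hx
  apply h
  have e : (1 - s) • (a - b) = (t + u * (1 - t)) • (c - b) := by
    have e1 : (1 - s) • (a - b) = ((1 - s) • a + s • b) - b := by module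
    rw [e1, ← hx]
    module
  have hpos : 0 < t + u * (1 - t) := by
    have := hu.1
    have : 0 ≤ u * (1 - t) := mul_nonneg hu.1 (by linarith)
    linarith
  rcases eq_or_lt_of_le (show 0 ≤ 1 - s by linarith [hs.2]) with h0 | h0
  · rw [← h0, zero_smul] at e
    have : c - b = 0 := by
      rcases smul_eq_zero.1 e.symm with h1 | h1
      · exact absurd h1 hpos.ne'
      · exact h1
    rw [this]; exact SameRay.zero_right _
  · exact Or.inr (Or.inr ⟨1 - s, t + u * (1 - t), h0, hpos, e⟩)

theorem sameRay_of_smul {v w : E3} {t : ℝ} (ht : 0 < t) (h : SameRay ℝ (t • v) w) :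
    SameRay ℝ v w := by
  have h1 := h.pos_smul_left (inv_pos.2 ht)
  rwa [smul_smul, inv_mul_cancel₀ ht.ne', one_smul] at h1

theorem exists_sub (K : PolyKnot) :
    ∃ K' : PolyKnot, K'.n = K.n + 1 ∧ K'.P = LP K.n K.P 0 0 ∧ Equivalent K K' := by
  have hn := K.three
  set n := K.n with hndef
  set P := K.P with hPdef
  have hper : ∀ i, P (i + n) = P i := K.per
  have h0 : P n = P 0 := by have := hper 0; rw [zero_add] at this; exact this
  have hm1 : P (n - 1) = P (-1) := by
    have := hper (-1); rw [← this, show (-1 : ℤ) + n = n - 1 by ring]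
  have v0 : LP n P 0 0 0 = P 0 := by rw [LP_zero]; simp
  have v1 : LP n P 0 0 (n - 1) = P (n - 1) := by rw [LP_n1 (by omega)]; simp
  have vn : LP n P 0 0 n = P (n - 1) + (1 / 2 : ℝ) • (P n - P (n - 1)) := by
    rw [LP_n (by omega)]; unfold edge; rw [show (n:ℤ) - 1 + 1 = n by ring]
  have vneg : LP n P 0 0 (-1) = P (n - 1) + (1 / 2 : ℝ) • (P n - P (n - 1)) := by
    rw [LP_neg (by omega)]; unfold edge; rw [show (n:ℤ) - 1 + 1 = n by ring]
  have vs : LP n P 0 0 (n + 1) = P n := by rw [LP_succ, h0]; simp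
  have vlt : ∀ i : ℤ, 0 ≤ i → i < n → LP n P 0 0 i = P i := by
    intro i h1 h2
    rcases eq_or_lt_of_le h1 with rfl | h3
    · exact v0
    · by_cases h4 : i = n - 1
      · rw [h4]; exact v1
      · exact LP_mid (by omega) (by omega)
  have hmem : P (n - 1) + (1 / 2 : ℝ) • (P n - P (n - 1)) ∈ openSegment ℝ (P (n - 1)) (P n) :=
    ⟨1 / 2, 1 / 2, by norm_num, by norm_num, by norm_num, by module⟩
  have hmem' := openSegment_subset_segment ℝ _ _ hmem
  have sub1 : segment ℝ (P (n - 1)) (P (n - 1) + (1 / 2 : ℝ) • (P n - P (n - 1))) ⊆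
      segment ℝ (P (n - 1)) (P n) :=
    (convex_segment _ _).segment_subset (left_mem_segment ℝ _ _) hmem'
  have sub2 : segment ℝ (P (n - 1) + (1 / 2 : ℝ) • (P n - P (n - 1))) (P n) ⊆
      segment ℝ (P (n - 1)) (P n) :=
    (convex_segment _ _).segment_subset hmem' (right_mem_segment ℝ _ _)
  obtain ⟨K', hK'n, hK'P⟩ := exists_knot (n + 1) (by omega) (LP n P 0 0) LP_per (by
    intro i hi0 hi1
    push_cast at hi1
    by_cases h1 : i = n
    · subst h1
      rw [v1, vn, vs]
      intro h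
      have e1 : P (n - 1) - (P (n - 1) + (1 / 2 : ℝ) • (P n - P (n - 1))) =
        (1 / 2 : ℝ) • (P (n - 1) - P n) := by module
      have e2 : P n - (P (n - 1) + (1 / 2 : ℝ) • (P n - P (n - 1))) =
        (1 / 2 : ℝ) • (P n - P (n - 1)) := by module
      rw [e1, e2] at h
      have h2 := sameRay_of_smul (by norm_num) h
      have h3 := sameRay_of_smul (by norm_num) h2.symm
      have e3 : P (n - 1) - P n = -(P n - P (n - 1)) := by abel
      rw [e3] at h3
      have h4 : P n - P (n - 1) = 0 := eq_zero_of_sameRay_self_neg h3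
      have h5 := edge_ne_zero K (n - 1)
      apply h5
      unfold edge
      rw [show (n:ℤ) - 1 + 1 = n by ring]
      exact h4
    · by_cases h2 : i = n - 1
      · subst h2
        rw [show (n:ℤ) - 1 + 1 = n by ring, v1, vn, vlt _ (by omega) (by omega)]
        intro h
        have e2 : (P (n - 1) + (1 / 2 : ℝ) • (P n - P (n - 1))) - P (n - 1) =
          (1 / 2 : ℝ) • (P n - P (n - 1)) := by module
        rw [e2] at h
        have h3 := sameRay_of_smul (by norm_num) h.symm
        have h4 := K.corner (n - 1)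
        rw [show (n:ℤ) - 1 + 1 = n by ring] at h4
        exact h4 h3.symm
      · by_cases h3 : i = 0
        · subst h3
          rw [zero_sub, vneg, v0, vlt _ (by omega) (by omega)]
          intro h
          have e2 : (P (n - 1) + (1 / 2 : ℝ) • (P n - P (n - 1))) - P 0 =
            (1 / 2 : ℝ) • (P (-1) - P 0) := by rw [h0, hm1]; module
          rw [e2] at h
          have h4 := K.corner 0
          rw [zero_sub] at h4
          exact h4 (sameRay_of_smul (by norm_num) h)
        · rw [vlt _ (by omega) (by omega), vlt _ (by omega) (by omega), vlt _ (by omega) (by omega)]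
          exact K.corner i) (by
    intro i j hi0 hij hj hor
    push_cast at hj hor
    by_cases h1 : j = n
    · subst h1
      rw [vn, vs, vlt i hi0 (by omega), vlt (i + 1) (by omega) (by omega)]
      by_cases h2 : i = n - 2
      · subst h2
        rw [show (n:ℤ) - 2 + 1 = n - 1 by ring]
        have h4 := K.corner (n - 1)
        rw [show (n:ℤ) - 1 + 1 = n by ring, show (n:ℤ) - 1 - 1 = n - 2 by ring] at h4
        exact adj h4 (by norm_num) (by norm_num)
      · have := K.disj i (n - 1) (by omega) (by omega)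
        rw [show (n:ℤ) - 1 + 1 = n by ring] at this
        exact this.mono_right sub2
    · by_cases h2 : j = n - 1
      · subst h2
        rw [show (n:ℤ) - 1 + 1 = n by ring, vn, v1, vlt i hi0 (by omega),
          vlt (i + 1) (by omega) (by omega)]
        by_cases h3 : i = 0
        · subst h3
          have h4 := K.corner 0
          rw [zero_sub, zero_add] at h4
          have h5 : ¬ SameRay ℝ (P 1 - P 0) (P (n - 1) - P 0) := by
            rw [hm1]; exact fun h => h4 h.symm
          have h6 := adj h5 (t := 1 / 2) (by norm_num) (by norm_num)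
          rw [segment_symm ℝ (P 1), segment_symm ℝ _ (P (n - 1))] at h6
          have e2 : P 0 + (1 / 2 : ℝ) • (P (n - 1) - P 0) =
            P (n - 1) + (1 / 2 : ℝ) • (P n - P (n - 1)) := by rw [h0]; module
          rw [e2] at h6
          rw [zero_add]
          exact h6
        · have := K.disj i (n - 1) (by omega) (by omega)
          rw [show (n:ℤ) - 1 + 1 = n by ring] at this
          exact this.mono_right sub1
      · rw [vlt i hi0 (by omega), vlt (i + 1) (by omega) (by omega), vlt j (by omega) (by omega),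
          vlt (j + 1) (by omega) (by omega)]
        exact K.disj i j hij (by omega))
  refine ⟨K', hK'n, hK'P, (Move.subdivide K K' hK'n ?_ ?_).equivalent⟩
  · intro i h1 h2
    rw [hK'P]
    exact vlt i h1 h2
  · rw [hK'P]
    show LP n P 0 0 n ∈ openSegment ℝ (P (n - 1)) (P n)
    rw [vn]
    exact hmem

/-! ### Genericity from one period -/

theorem det3_perm1 (a b c : E3) : det3 b a c = - det3 a b c := by unfold det3; ring
theorem det3_perm2 (a b c : E3) : det3 a c b = - det3 a b c := by unfold det3; ring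
theorem det3_perm3 (a b c : E3) : det3 b c a = det3 a b c := by unfold det3; ring
theorem det3_perm4 (a b c : E3) : det3 c a b = det3 a b c := by unfold det3; ring
theorem det3_perm5 (a b c : E3) : det3 c b a = - det3 a b c := by unfold det3; ring

theorem gen_of_range {m : ℕ} (hm : 0 < m) {Q : ℤ → E3} (hper : ∀ i, Q (i + m) = Q i)
    (h : ∀ i j k : ℤ, 0 ≤ i → i < j → j < k → k < m →
      det3 (edge Q i) (edge Q j) (edge Q k) ≠ 0) : Gen m Q := by
  have hm0 : (0:ℤ) < m := by omega
  have hE : ∀ i, edge Q i = edge Q (i % m) := per_mod hm (Q := edge Q) (edge_per hper)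
  -- all six orders
  have h6 : ∀ i j k : ℤ, 0 ≤ i → i < m → 0 ≤ j → j < m → 0 ≤ k → k < m → i ≠ j → j ≠ k → i ≠ k →
      det3 (edge Q i) (edge Q j) (edge Q k) ≠ 0 := by
    intro i j k i0 i1 j0 j1 k0 k1 hij hjk hik
    rcases lt_or_gt_of_ne hij with a | a
    · rcases lt_or_gt_of_ne hjk with b | b
      · exact h i j k i0 a b k1
      · rcases lt_or_gt_of_ne hik with c | c
        · have := h i k j i0 c b j1
          rw [det3_perm2] at this
          intro h0; apply this; rw [h0]; simp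
        · have := h k i j k0 c a j1
          rw [det3_perm4] at this
          exact this
    · rcases lt_or_gt_of_ne hik with c | c
      · have := h j i k j0 a c k1
        rw [det3_perm1] at this
        intro h0; apply this; rw [h0]; simp
      · rcases lt_or_gt_of_ne hjk with b | b
        · have := h j k i j0 b c i1
          rw [det3_perm3] at this
          exact this
        · have := h k j i k0 b a i1
          rw [det3_perm5] at this
          intro h0; apply this; rw [h0]; simp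
  intro i j k hij hjk hki
  rw [hE i, hE j, hE k]
  have key : ∀ a b : ℤ, a < b → b < a + m → a % m ≠ b % m := by
    intro a b h1 h2 h3
    have h4 : (b - a) % m = 0 := by
      rw [Int.sub_emod, h3, sub_self, Int.zero_emod]
    rw [Int.emod_eq_of_lt (by omega) (by omega)] at h4
    omega
  exact h6 _ _ _ (Int.emod_nonneg _ hm0.ne') (Int.emod_lt_of_pos _ hm0)
    (Int.emod_nonneg _ hm0.ne') (Int.emod_lt_of_pos _ hm0) (Int.emod_nonneg _ hm0.ne')
    (Int.emod_lt_of_pos _ hm0) (key _ _ hij (by omega)) (key _ _ hjk (by omega))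
    (key _ _ (by omega) (by omega))

/-! ### Counting -/

theorem D_smul {a b s t : ℝ} (ha : 0 < a) (hb : 0 < b) : D (a * s) (b * t) = D s t := by
  unfold D
  have e1 : 0 < a * s ↔ 0 < s := mul_pos_iff_of_pos_left ha
  have e2 : b * t < 0 ↔ t < 0 := by
    constructor
    · intro h
      by_contra h'
      have := mul_nonneg hb.le (not_lt.1 h')
      linarith
    · intro h; exact mul_neg_of_pos_of_neg hb h
  simp only [e1, e2]

open scoped Classical in
theorem D_neg_add {s t : ℝ} (hs : s ≠ 0) (ht : t ≠ 0) :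
    D s t + (if 0 < t then 1 else 0) = D (-s) (-t) + (if 0 < s then 1 else 0) := by
  unfold D
  rcases lt_or_gt_of_ne hs with h1 | h1 <;> rcases lt_or_gt_of_ne ht with h2 | h2 <;>
    simp [h1, h2, not_lt.2 h1.le, not_lt.2 h2.le]

theorem maxima_smul {n : ℕ} {P : ℤ → E3} (hper : ∀ i, P (i + n) = P i) {v : E3} {c : ℝ}
    (hc : c ≠ 0) (hv : ∀ i, v ⬝ᵥ edge P i ≠ 0) : maxima n P (c • v) = maxima n P v := by
  classical
  rw [maxima_eq_sum, maxima_eq_sum]
  simp only [smul_dotProduct, smul_eq_mul]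
  rcases lt_or_gt_of_ne hc with h | h
  · have e1 : ∀ s t : ℝ, D (c * s) (c * t) = D (-s) (-t) := by
      intro s t
      have := D_smul (a := -c) (b := -c) (s := -s) (t := -t) (by linarith) (by linarith)
      rw [← this]; congr 1 <;> ring
    simp only [e1]
    have h1 : ∑ i ∈ Finset.range n, (D (v ⬝ᵥ edge P ((i : ℤ) - 1)) (v ⬝ᵥ edge P i) +
        (if 0 < v ⬝ᵥ edge P i then 1 else 0)) =
      ∑ i ∈ Finset.range n, (D (-(v ⬝ᵥ edge P ((i : ℤ) - 1))) (-(v ⬝ᵥ edge P i)) +
        (if 0 < v ⬝ᵥ edge P ((i : ℤ) - 1) then 1 else 0)) :=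
      Finset.sum_congr rfl (fun i _ => D_neg_add (hv _) (hv _))
    rw [Finset.sum_add_distrib, Finset.sum_add_distrib] at h1
    have h2 := sum_shift n (fun i : ℤ => if 0 < v ⬝ᵥ edge P i then 1 else 0) (by
      intro i; simp only [edge_per hper]) (-1)
    simp only [← sub_eq_add_neg] at h2
    omega
  · exact Finset.sum_congr rfl (fun i _ => D_smul h h)

theorem D_ineq {a e b p q : ℝ} (ha : a ≠ 0) (he : e ≠ 0) (hb : b ≠ 0) (hp : 0 < p) (hq : 0 < q)
    (hp1 : p < 1) (hq1 : q < 1) :
    D (1 / 2 * e + q * b) ((1 - q) * b) + D ((1 - p) * a) (1 / 2 * e + p * a) +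
      D (1 / 2 * e + p * a) (1 / 2 * e + q * b) ≤ D e b + D a e := by
  have e1 : D ((1 - p) * a) (1 / 2 * e + p * a) = D a (1 / 2 * e + p * a) := by
    have := D_smul (a := 1 - p) (b := 1) (s := a) (t := 1 / 2 * e + p * a) (by linarith) one_pos
    rw [one_mul] at this; exact this
  have e2 : D (1 / 2 * e + q * b) ((1 - q) * b) = D (1 / 2 * e + q * b) b := by
    have := D_smul (a := 1) (b := 1 - q) (s := 1 / 2 * e + q * b) (t := b) one_pos (by linarith)
    rw [one_mul] at this; exact this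
  rw [e1, e2]
  set f := 1 / 2 * e + p * a with hf
  set g := 1 / 2 * e + q * b with hg
  have f1 : 0 < e → 0 < a → 0 < f := fun h1 h2 => by positivity
  have f2 : e < 0 → a < 0 → f < 0 := fun h1 h2 => by
    have := mul_neg_of_pos_of_neg hp h2
    rw [hf]; linarith
  have g1 : 0 < e → 0 < b → 0 < g := fun h1 h2 => by positivity
  have g2 : e < 0 → b < 0 → g < 0 := fun h1 h2 => by
    have := mul_neg_of_pos_of_neg hq h2
    rw [hg]; linarith
  clear_value f g
  unfold D
  rcases lt_or_gt_of_ne ha with a0 | a0 <;> rcases lt_or_gt_of_ne he with b0 | b0 <;>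
    rcases lt_or_gt_of_ne hb with c0 | c0 <;>
    (try have := f1 b0 a0) <;> (try have := f2 b0 a0) <;> (try have := g1 b0 c0) <;>
    (try have := g2 b0 c0) <;> split_ifs <;>
    first
    | omega
    | (exfalso; grind)

theorem maxima_LP {n : ℕ} {P : ℤ → E3} (hper : ∀ i, P (i + n) = P i) (hn : 4 ≤ n) {p q : ℝ}
    (hp : 0 < p) (hq : 0 < q) (hp1 : p < 1) (hq1 : q < 1) {v : E3}
    (hv : ∀ i, v ⬝ᵥ edge P i ≠ 0) : maxima (n + 1) (LP n P p q) v ≤ maxima n P v := by
  obtain ⟨m, rfl⟩ : ∃ m, n = m + 2 := ⟨n - 2, by omega⟩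
  rw [maxima_eq_sum, maxima_eq_sum, Finset.sum_range_succ, Finset.sum_range_succ,
    Finset.sum_range_succ', Finset.sum_range_succ _ (m + 1), Finset.sum_range_succ' _ m]
  have h1 : ∑ k ∈ Finset.range m, D (v ⬝ᵥ edge (LP (m + 2) P p q) (((k + 1 : ℕ) : ℤ) - 1))
      (v ⬝ᵥ edge (LP (m + 2) P p q) ((k + 1 : ℕ) : ℤ)) =
    ∑ k ∈ Finset.range m, D (v ⬝ᵥ edge P (((k + 1 : ℕ) : ℤ) - 1))
      (v ⬝ᵥ edge P ((k + 1 : ℕ) : ℤ)) := by
    refine Finset.sum_congr rfl (fun k hk => ?_)
    have hk' := Finset.mem_range.1 hk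
    have hsc : ∀ i : ℤ, 0 ≤ i → i ≤ m → ∃ c : ℝ, 0 < c ∧
        v ⬝ᵥ edge (LP (m + 2) P p q) i = c * (v ⬝ᵥ edge P i) := by
      intro i h0 h1
      by_cases e0 : i = 0
      · subst e0
        refine ⟨1 - q, by linarith, ?_⟩
        rw [edge_zero (by omega)]
        simp only [dotProduct_smul, smul_eq_mul]
      · by_cases e1 : i = m
        · subst e1
          refine ⟨1 - p, by linarith, ?_⟩
          have := edge_n2 (n := m + 2) (P := P) (p := p) (q := q) (by omega)
          rw [show (((m + 2 : ℕ) : ℤ)) - 2 = m by push_cast; ring] at this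
          rw [this]
          simp only [dotProduct_smul, smul_eq_mul]
        · refine ⟨1, one_pos, ?_⟩
          rw [edge_mid (by omega) (by push_cast; omega), one_mul]
    obtain ⟨c, hc, e1⟩ := hsc (((k + 1 : ℕ) : ℤ) - 1) (by push_cast; omega) (by push_cast; omega)
    obtain ⟨c', hc', e2⟩ := hsc ((k + 1 : ℕ) : ℤ) (by push_cast; omega) (by push_cast; omega)
    rw [e1, e2, D_smul hc hc']
  rw [h1]
  have i1 : (((m + 1 : ℕ) : ℤ)) - 1 = ((m + 2 : ℕ) : ℤ) - 2 := by push_cast; ring
  have i2 : (((m + 1 : ℕ) : ℤ)) = ((m + 2 : ℕ) : ℤ) - 1 := by push_cast; ring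
  have i3 : ((0 : ℕ) : ℤ) - 1 = -1 := by norm_num
  have i4 : ((0 : ℕ) : ℤ) = 0 := rfl
  have i5 : edge P (-1) = edge P (((m + 2 : ℕ) : ℤ) - 1) := by
    rw [← edge_per hper (-1)]; congr 1
  rw [i1, i2, i3, i4, i5, edge_n2 (by omega), edge_n1 (by omega), edge_n hper (by omega),
    edge_neg hper (by omega), edge_zero (by omega)]
  have := D_ineq (hv (((m + 2 : ℕ) : ℤ) - 2)) (hv (((m + 2 : ℕ) : ℤ) - 1)) (hv 0) hp hq hp1 hq1
  simp only [dotProduct_add, dotProduct_smul, smul_eq_mul]
  omega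

/-! ### The slack conformation -/

theorem cramer (w A E B : E3) : det3 A E B • w =
    (w ⬝ᵥ A) • crossProduct E B + (w ⬝ᵥ E) • crossProduct B A + (w ⬝ᵥ B) • crossProduct A E := by
  ext i
  fin_cases i <;> simp [cross_apply, det3, dot_expand] <;> ring

theorem cross_formula {w A E B : E3} (hE : w ⬝ᵥ E = 0) (hδ : det3 A E B ≠ 0) (t : ℝ) :
    crossProduct ((1 / 2 : ℝ) • E + (t * (w ⬝ᵥ B)) • A) ((1 / 2 : ℝ) • E + (t * (w ⬝ᵥ A)) • B) =
      (t * det3 A E B / 2) • (w + t • ((2 * (w ⬝ᵥ B) * (w ⬝ᵥ A) / det3 A E B) • crossProduct A B))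
      := by
  have h1 := cramer w A E B
  rw [hE, zero_smul, add_zero] at h1
  have h2 : (t * det3 A E B / 2) •
      (w + t • ((2 * (w ⬝ᵥ B) * (w ⬝ᵥ A) / det3 A E B) • crossProduct A B)) =
      (t / 2) • (det3 A E B • w) + (t ^ 2 * (w ⬝ᵥ B) * (w ⬝ᵥ A)) • crossProduct A B := by
    rw [smul_add, smul_smul, smul_smul, smul_smul]
    congr 1
    · congr 1; ring
    · congr 1; field_simp
  rw [h2, h1]
  ext i
  fin_cases i <;> simp [cross_apply] <;> ring

theorem det3_continuous {a b c : ℝ → E3} (ha : Continuous a) (hb : Continuous b)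
    (hc : Continuous c) : Continuous fun t => det3 (a t) (b t) (c t) := by
  unfold det3
  fun_prop

theorem LP_continuous (n : ℕ) (P : ℤ → E3) (x y : ℝ) (i : ℤ) :
    Continuous fun t : ℝ => LP n P (t * x) (t * y) i := by
  unfold LP
  split_ifs <;> fun_prop

theorem LP_close {n : ℕ} {P : ℤ → E3} {p q ε : ℝ} (hε : 0 < ε) (h1 : ‖q • edge P 0‖ < ε)
    (h2 : ‖p • edge P (n - 2)‖ < ε) (i : ℤ) : ‖LP n P p q i - LP n P 0 0 i‖ < ε := by
  unfold LP
  split_ifs
  · have : P 0 + q • edge P 0 - (P 0 + (0:ℝ) • edge P 0) = q • edge P 0 := by module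
    rw [this]; exact h1
  · have : P (n - 1) - p • edge P (n - 2) - (P (n - 1) - (0:ℝ) • edge P (n - 2))
      = -(p • edge P (n - 2)) := by module
    rw [this, norm_neg]; exact h2
  · simpa using hε
  · simpa using hε

theorem slack_last (K : PolyKnot) (hn : 4 ≤ K.n) (hgen : Gen K.n K.P) (s : ℝ)
    (hpos : 0 < s * det3 (edge K.P (K.n - 2)) (edge K.P (K.n - 1)) (edge K.P 0))
    (M : ℕ) (hM : ∀ v, maxima K.n K.P v ≤ M) (w : E3) (h0 : w ⬝ᵥ edge K.P (K.n - 1) = 0)
    (h1 : 0 < w ⬝ᵥ edge K.P (K.n - 2)) (h2 : 0 < w ⬝ᵥ edge K.P 0)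
    (h3 : ∀ k : ℤ, ¬ k ≡ K.n - 1 [ZMOD K.n] → w ⬝ᵥ edge K.P k ≠ 0)
    (hw : ∀ᶠ v in 𝓝 w, maxima K.n K.P v + 1 ≤ M) :
    ∃ L : PolyKnot, Equivalent K L ∧ 4 ≤ L.n ∧ Gen L.n L.P ∧ (∀ v, maxima L.n L.P v ≤ M) ∧
      0 < s * det3 (edge L.P (L.n - 3)) (edge L.P (L.n - 2)) (edge L.P (L.n - 1)) ∧
      ∀ᶠ v in 𝓝 (crossProduct (edge L.P (L.n - 2)) (edge L.P (L.n - 1))),
        maxima L.n L.P v + 1 ≤ M := by
  obtain ⟨K', hK'n, hK'P, hK'e⟩ := exists_sub K
  obtain ⟨ε₀, hε₀, hmove⟩ := exists_eps K'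
  have hper := K.per
  have hne := edge_ne_zero K
  set n := K.n with hndef
  set P := K.P with hPdef
  clear_value n P
  set A := edge P (n - 2) with hA
  set E := edge P (n - 1) with hE
  set B := edge P 0 with hB
  set x := w ⬝ᵥ B with hx
  set y := w ⬝ᵥ A with hy
  set δ := det3 A E B with hδ
  have hδ0 : δ ≠ 0 := by
    intro h; rw [h, mul_zero] at hpos; exact lt_irrefl _ hpos
  set z : E3 := (2 * x * y / δ) • crossProduct A B with hz
  set LL : ℝ → ℤ → E3 := fun t => LP n P (t * x) (t * y) with hLL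
  have hLLper : ∀ t i, LL t (i + (n + 1 : ℕ)) = LL t i := fun t i => LP_per i
  have hLLc : ∀ i, Continuous fun t => LL t i := fun i => LP_continuous n P x y i
  have hEc : ∀ i, Continuous fun t => edge (LL t) i := fun i => (hLLc (i + 1)).sub (hLLc i)
  have hLL0 : LL 0 = LP n P 0 0 := by simp [hLL]
  have en1 : ∀ t, edge (LL t) (n - 1) = (1 / 2 : ℝ) • E + (t * x) • A := fun t =>
    edge_n1 (by omega)
  have en : ∀ t, edge (LL t) n = (1 / 2 : ℝ) • E + (t * y) • B := fun t =>
    edge_n hper (by omega)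
  have en2 : ∀ t, edge (LL t) (n - 2) = (1 - t * x) • A := fun t => edge_n2 (by omega)
  have hcr : ∀ t, crossProduct (edge (LL t) (n - 1)) (edge (LL t) n) =
      (t * δ / 2) • (w + t • z) := fun t => by
    rw [en1, en]; exact cross_formula h0 hδ0 t
  have h0e : ∀ i : ℤ, 0 ≤ i → i ≤ n - 2 → edge (LL 0) i = edge P i := by
    intro i i0 i1
    rw [hLL0]
    by_cases a : i = 0
    · subst a; rw [edge_zero (by omega)]; simp
    · by_cases b : i = n - 2
      · subst b; rw [edge_n2 (by omega)]; simp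
      · exact edge_mid (by omega) (by omega)
  have h0n1 : edge (LL 0) (n - 1) = (1 / 2 : ℝ) • E := by rw [en1]; simp
  have h0n : edge (LL 0) n = (1 / 2 : ℝ) • E := by rw [en]; simp
  -- the eventual conditions
  have hcont0 : ∀ {f : ℝ → ℝ} {U : Set ℝ}, Continuous f → IsOpen U → f 0 ∈ U →
      ∀ᶠ t in 𝓝[>] (0:ℝ), f t ∈ U := fun {f U} hf hU h =>
    (hf.continuousAt.eventually (hU.mem_nhds h)).filter_mono nhdsWithin_le_nhds
  have ev1 : ∀ᶠ t in 𝓝[>] (0:ℝ), t * x < 1 :=
    hcont0 (f := fun t => t * x) (U := Set.Iio 1) (by fun_prop) isOpen_Iio (by simp)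
  have ev2 : ∀ᶠ t in 𝓝[>] (0:ℝ), t * y < 1 :=
    hcont0 (f := fun t => t * y) (U := Set.Iio 1) (by fun_prop) isOpen_Iio (by simp)
  have ev3 : ∀ᶠ t in 𝓝[>] (0:ℝ), ‖(t * y) • B‖ < ε₀ :=
    hcont0 (f := fun t => ‖(t * y) • B‖) (U := Set.Iio ε₀) (by fun_prop) isOpen_Iio (by simpa)
  have ev4 : ∀ᶠ t in 𝓝[>] (0:ℝ), ‖(t * x) • A‖ < ε₀ :=
    hcont0 (f := fun t => ‖(t * x) • A‖) (U := Set.Iio ε₀) (by fun_prop) isOpen_Iio (by simpa)
  set W : Set E3 := interior {v | maxima n P v + 1 ≤ M} with hW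
  have hWo : IsOpen W := isOpen_interior
  have hwW : w ∈ W := mem_interior_iff_mem_nhds.2 hw
  have ev5 : ∀ᶠ t in 𝓝[>] (0:ℝ), w + t • z ∈ W := by
    have hc : Continuous fun t : ℝ => w + t • z := by fun_prop
    exact (hc.continuousAt.eventually (hWo.mem_nhds (by simpa using hwW))).filter_mono
      nhdsWithin_le_nhds
  have ev6 : ∀ᶠ t in 𝓝[>] (0:ℝ), ∀ i j k : ℤ, 0 ≤ i → i < j → j < k → k < (n + 1 : ℕ) →
      det3 (edge (LL t) i) (edge (LL t) j) (edge (LL t) k) ≠ 0 := by
    have hfin : ∀ᶠ t in 𝓝[>] (0:ℝ), ∀ a ∈ Finset.Icc (0:ℤ) n ×ˢ Finset.Icc (0:ℤ) n ×ˢ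
        Finset.Icc (0:ℤ) n, (a.1 < a.2.1 ∧ a.2.1 < a.2.2) →
        det3 (edge (LL t) a.1) (edge (LL t) a.2.1) (edge (LL t) a.2.2) ≠ 0 := by
      rw [Filter.eventually_all_finset]
      rintro ⟨i, j, k⟩ ha
      simp only [Finset.mem_product, Finset.mem_Icc] at ha
      obtain ⟨⟨i0, i1⟩, ⟨j0, j1⟩, ⟨k0, k1⟩⟩ := ha
      by_cases hlt : i < j ∧ j < k
      swap
      · exact Filter.Eventually.of_forall fun t h => absurd h hlt
      obtain ⟨hij, hjk⟩ := hlt
      by_cases hspec : j = n - 1
      · -- both halves of the last edge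
        have hk : k = n := by omega
        subst hspec
        subst hk
        have hdot : Continuous fun t : ℝ => (w + t • z) ⬝ᵥ edge (LL t) i := by
          have e1 : Continuous fun t : ℝ => w + t • z := by fun_prop
          have e2 := hEc i
          simp only [dot_expand]
          have a0 : ∀ m : Fin 3, Continuous fun t : ℝ => (w + t • z) m := fun m =>
            (continuous_apply m).comp e1
          have a1 : ∀ m : Fin 3, Continuous fun t : ℝ => edge (LL t) i m := fun m =>
            (continuous_apply m).comp e2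
          exact (((a0 0).mul (a1 0)).add ((a0 1).mul (a1 1))).add ((a0 2).mul (a1 2))
        have hne0 : (w + (0:ℝ) • z) ⬝ᵥ edge (LL 0) i ≠ 0 := by
          rw [zero_smul, add_zero, h0e i i0 (by omega)]
          apply h3
          intro hmod
          have := Int.emod_emod_of_dvd
          have e3 : (n:ℤ) ∣ (n - 1) - i := (Int.modEq_iff_dvd).1 hmod
          have e4 := Int.le_of_dvd (by omega) e3
          omega
        have := hcont0 (U := {0}ᶜ) hdot isOpen_compl_singleton hne0
        filter_upwards [this, self_mem_nhdsWithin] with t ht ht0 _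
        have ht0' : (0:ℝ) < t := ht0
        rw [← det3_perm3, ← cross_dot, hcr t, smul_dotProduct, smul_eq_mul]
        exact mul_ne_zero (by positivity) ht
      · have hc := det3_continuous (hEc i) (hEc j) (hEc k)
        have hne0 : det3 (edge (LL 0) i) (edge (LL 0) j) (edge (LL 0) k) ≠ 0 := by
          have hj2 : j ≤ n - 2 := by omega
          rw [h0e i i0 (by omega), h0e j j0 hj2]
          by_cases hk : k ≤ n - 2
          · rw [h0e k k0 hk]
            exact hgen i j k hij hjk (by omega)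
          · have hk' : edge (LL 0) k = (1 / 2 : ℝ) • edge P (n - 1) := by
              by_cases hkn : k = n
              · rw [hkn]; exact h0n
              · have : k = n - 1 := by omega
                rw [this]; exact h0n1
            rw [hk']
            have h5 := hgen i j (n - 1) hij (by omega) (by omega)
            have h6 : det3 (edge P i) (edge P j) ((1 / 2 : ℝ) • edge P (n - 1)) =
                (1 / 2) * det3 (edge P i) (edge P j) (edge P (n - 1)) := by
              unfold det3; simp only [Pi.smul_apply, smul_eq_mul]; ring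
            rw [h6]
            exact mul_ne_zero (by norm_num) h5
        have := hcont0 (U := {0}ᶜ) hc isOpen_compl_singleton hne0
        filter_upwards [this] with t ht _
        exact ht
    filter_upwards [hfin] with t ht i j k i0 hij hjk hk
    push_cast at hk
    refine ht (i, j, k) ?_ ⟨hij, hjk⟩
    simp only [Finset.mem_product, Finset.mem_Icc]
    omega
  obtain ⟨t, ⟨⟨⟨⟨⟨⟨h11, h12⟩, h13⟩, h14⟩, h15⟩, h16⟩, h17⟩⟩ :=
    ((((((ev1.and ev2).and ev3).and ev4).and ev5).and ev6).and self_mem_nhdsWithin).exists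
  have ht : (0:ℝ) < t := h17
  obtain ⟨L, hLn, hLP, hLe⟩ := hmove (LL t) (by
    intro i; rw [hK'n]; exact hLLper t i) (by
    intro i; rw [hK'P]; exact LP_close hε₀ h13 h14 i)
  rw [hK'n] at hLn
  set S : Set E3 := (fun i : ℕ => edge P i) '' (Set.Iio n) with hS
  have hSfin : S.Finite := (Set.finite_Iio n).image _
  have hSgen : ∀ v : E3, (∀ w ∈ S, w ≠ 0 → v ⬝ᵥ w ≠ 0) → ∀ i : ℤ, v ⬝ᵥ edge P i ≠ 0 := by
    intro v hv i
    have e1 := per_mod (m := n) (by omega) (Q := edge P) (edge_per hper) i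
    have hn0 : (0:ℤ) < n := by omega
    have i0 := Int.emod_nonneg i hn0.ne'
    have i1 := Int.emod_lt_of_pos i hn0
    rw [e1]
    obtain ⟨m, hm⟩ := Int.eq_ofNat_of_zero_le i0
    refine hv _ ⟨m, ?_, ?_⟩ (hne _)
    · show m < n; omega
    · rw [hm]
  have hLmax : ∀ v : E3, (∀ w ∈ S, w ≠ 0 → v ⬝ᵥ w ≠ 0) →
      maxima (n + 1) (LL t) v ≤ maxima n P v := fun v hv =>
    maxima_LP hper hn (by positivity) (by positivity) h11 h12 (hSgen v hv)
  refine ⟨L, hK'e.trans hLe, by omega, ?_, ?_, ?_, ?_⟩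
  · rw [hLn, hLP]
    exact gen_of_range (by omega) (hLLper t) h16
  · intro v
    rw [hLn, hLP]
    exact bound_of_generic _ _ _ S hSfin (fun v hv => (hLmax v hv).trans (hM v)) v
  · rw [hLn, hLP]
    have i1 : (((n + 1 : ℕ)) : ℤ) - 3 = n - 2 := by push_cast; ring
    have i2 : (((n + 1 : ℕ)) : ℤ) - 2 = n - 1 := by push_cast; ring
    have i3 : (((n + 1 : ℕ)) : ℤ) - 1 = n := by push_cast; ring
    rw [i1, i2, i3, ← det3_perm3, ← cross_dot, hcr t, en2, smul_dotProduct, dotProduct_smul,
      add_dotProduct, smul_dotProduct, hz, smul_dotProduct]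
    have h5 : crossProduct A B ⬝ᵥ A = 0 := by
      rw [cross_dot]; unfold det3; ring
    rw [h5]
    simp only [smul_eq_mul, mul_zero, add_zero]
    rw [← hy]
    have : s * (t * δ / 2 * ((1 - t * x) * y)) = (s * δ) * (t / 2 * ((1 - t * x) * y)) := by ring
    rw [this]
    have h6 : 0 < 1 - t * x := by linarith
    positivity
  · rw [hLn, hLP]
    have i2 : (((n + 1 : ℕ)) : ℤ) - 2 = n - 1 := by push_cast; ring
    have i3 : (((n + 1 : ℕ)) : ℤ) - 1 = n := by push_cast; ring
    rw [i2, i3, hcr t]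
    set c := t * δ / 2 with hc
    have hc0 : c ≠ 0 := by rw [hc]; positivity
    have hcont : Continuous fun v : E3 => c⁻¹ • v := by fun_prop
    have hO : IsOpen {v : E3 | c⁻¹ • v ∈ W} := hWo.preimage hcont
    have hmem : c • (w + t • z) ∈ {v : E3 | c⁻¹ • v ∈ W} := by
      show c⁻¹ • (c • (w + t • z)) ∈ W
      rw [smul_smul, inv_mul_cancel₀ hc0, one_smul]
      exact h15
    filter_upwards [hO.mem_nhds hmem] with v hv
    obtain ⟨v', hv'1, hv'2, hv'3⟩ := exists_generic_near (n + 1) (LL t) S hSfin v _ (hO.mem_nhds hv)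
    have h5 := hLmax v' hv'2
    have h6 : c⁻¹ • v' ∈ {v | maxima n P v + 1 ≤ M} := interior_subset hv'1
    have h7 : maxima n P (c⁻¹ • v') + 1 ≤ M := h6
    rw [maxima_smul hper (inv_ne_zero hc0) (hSgen v' hv'2)] at h7
    omega

end Pool.Agent.helper82.SB.H

namespace Pool.Agent.helper82.SB

open Matrix Filter Topology

/-- SB-H. If all torsion signs agree, there is a conformation with a slack last corner. -/
theorem exists_slack (K : PolyKnot) (hn : 4 ≤ K.n) (hgen : Gen K.n K.P) (s : ℝ)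
    (hpos : ∀ i : ℤ, 0 < s * det3 (edge K.P (i - 1)) (edge K.P i) (edge K.P (i + 1)))
    (M : ℕ) (hM : ∀ v, maxima K.n K.P v ≤ M) :
    ∃ L : PolyKnot, Equivalent K L ∧ 4 ≤ L.n ∧ Gen L.n L.P ∧ (∀ v, maxima L.n L.P v ≤ M) ∧
      0 < s * det3 (edge L.P (L.n - 3)) (edge L.P (L.n - 2)) (edge L.P (L.n - 1)) ∧
      ∀ᶠ v in 𝓝 (crossProduct (edge L.P (L.n - 2)) (edge L.P (L.n - 1))),
        maxima L.n L.P v + 1 ≤ M := by
  obtain ⟨i, w, h0, h1, h2, h3, h4⟩ := exists_active K.n hn K.P K.per hgen s hpos M hM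
  obtain ⟨K', hn', hP', he, hmax⟩ := exists_rotate K (i - (K.n - 1))
  have hedge : ∀ j : ℤ, edge K'.P j = edge K.P (j + (i - (K.n - 1))) := by
    intro j
    unfold edge
    rw [hP', hP']
    congr 2; ring
  have hfun : K'.P = fun j => K.P (j + (i - (K.n - 1))) := funext hP'
  have hmax' : ∀ v, maxima K'.n K'.P v = maxima K.n K.P v := hmax
  obtain ⟨L, l1, l2, l3, l4, l5, l6⟩ := H.slack_last K' (by omega) (by
      intro a b c hab hbc hca
      rw [hedge, hedge, hedge]
      rw [hn'] at hca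
      exact hgen _ _ _ (by omega) (by omega) (by omega)) s (by
      have := hpos i
      rw [hedge, hedge, hedge, hn']
      have e1 : (K.n : ℤ) - 2 + (i - (K.n - 1)) = i - 1 := by ring
      have e2 : (K.n : ℤ) - 1 + (i - (K.n - 1)) = i := by ring
      have e3 : edge K.P (0 + (i - (K.n - 1))) = edge K.P (i + 1) := by
        rw [← edge_per K.per (0 + (i - (K.n - 1)))]; congr 1; ring
      rw [e1, e2, e3]
      exact this) M (fun v => by rw [hmax']; exact hM v) w (by
      rw [hedge, hn']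
      have e2 : (K.n : ℤ) - 1 + (i - (K.n - 1)) = i := by ring
      rw [e2]; exact h0) (by
      rw [hedge, hn']
      have e1 : (K.n : ℤ) - 2 + (i - (K.n - 1)) = i - 1 := by ring
      rw [e1]; exact h1) (by
      rw [hedge]
      have e3 : edge K.P (0 + (i - (K.n - 1))) = edge K.P (i + 1) := by
        rw [← edge_per K.per (0 + (i - (K.n - 1)))]; congr 1; ring
      rw [e3]; exact h2) (by
      intro k hk
      rw [hedge]
      apply h3
      intro hmod
      apply hk
      rw [hn']
      have e4 := (Int.modEq_iff_dvd).1 hmod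
      apply (Int.modEq_iff_dvd).2
      have e5 : (K.n : ℤ) - 1 - k = i - (k + (i - (K.n - 1))) := by ring
      rw [e5]; exact e4) (by
      filter_upwards [h4] with v hv
      rw [hmax']; exact hv)
  exact ⟨L, he.trans l1, l2, l3, l4, l5, l6⟩

end Pool.Agent.helper82.SB
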